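import Pool.Agent.Helper31.T5.Arcs
import Pool.Agent.Helper63.T5.SLNum

/-!
# T5b (MP_12a1af), line 8: the exponent of the middle range

Units: `T` = logarithm of the window, `q = log (N / N0)`, `a = log (Ne / N)` (lead of the upper
state), `M = log (Ne' / N0)` (lead of the lower state), `v` = logarithm of the window of the lower
state, `lw` = logarithm of the square root of the first static modulus.
-/

set_option autoImplicit false

namespace Pool.Agent.Helper18.T5b

/-- **the exponent of (B2), middle** -/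
theorem mid_exp {q a M v lw T s : ℝ} (hT : 0 < T) (hs0 : 0 ≤ s) (hs : 65536 * s ≤ T)
    (hv : v ≤ T + s) (hw : T / 2 - s ≤ lw) (ha : 11 / 1024 * T ≤ a)
    (ha' : a ≤ 14 / 1024 * T) (hM : M ≤ 13 / 1024 * (1 + 1 / 10000) * T + s)
    (hq : 7 / 20 * T ≤ q) :
    q / 2 + max 0 (max (q + a) v - q - lw) + max 0 (min (q + a) v - (M + lw)) - (q + a - M) ≤
      -(11 / 2048 * T) + 3 * s := by
  rcases le_total (q + a) v with h | h
  · rw [max_eq_right h, min_eq_left h]
    rcases max_cases 0 (v - q - lw) with ⟨h1, h2⟩ | ⟨h1, h2⟩ <;>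
      rcases max_cases 0 (q + a - (M + lw)) with ⟨h3, h4⟩ | ⟨h3, h4⟩ <;>
      rw [h1, h3] <;> linarith
  · rw [max_eq_left h, min_eq_right h]
    rcases max_cases 0 (q + a - q - lw) with ⟨h1, h2⟩ | ⟨h1, h2⟩ <;>
      rcases max_cases 0 (v - (M + lw)) with ⟨h3, h4⟩ | ⟨h3, h4⟩ <;>
      rw [h1, h3] <;> linarith

end Pool.Agent.Helper18.T5b
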